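import Pool.Agent.Lib.MP_aa7e4d_lc.Interfaces

/-!
# Module DET: formulas are determined by iterated parents
-/

open FirstOrder FirstOrder.Language

namespace Pool.Agent.SFC.H19

theorem Approx.mono {N₁ N₂ : Type} {F₁ : Frame N₁} {F₂ : Frame N₂} {d d' : ℕ} (h : d' ≤ d)
    {α : Type} {u : α → N₁} {u' : α → N₂} (H : Approx F₁ F₂ d u u') : Approx F₁ F₂ d' u u' :=
  ⟨fun a b w w' hw hw' => H.1 a b w w' (hw.trans h) (hw'.trans h),
    fun a w hw => H.2.1 a w (hw.trans h),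
    fun a b w w' hw hw' => H.2.2 a b w w' (hw.trans h) (hw'.trans h)⟩

theorem Approx.symm {N₁ N₂ : Type} {F₁ : Frame N₁} {F₂ : Frame N₂} {d : ℕ}
    {α : Type} {u : α → N₁} {u' : α → N₂} (H : Approx F₁ F₂ d u u') : Approx F₂ F₁ d u' u :=
  ⟨fun a b w w' hw hw' => (H.1 a b w w' hw hw').symm,
    fun a w hw => (H.2.1 a w hw).symm,
    fun a b w w' hw hw' => (H.2.2 a b w w' hw hw').symm⟩

theorem Approx.comp {N₁ N₂ : Type} {F₁ : Frame N₁} {F₂ : Frame N₂} {d : ℕ}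
    {α β : Type} {u : α → N₁} {u' : α → N₂} (H : Approx F₁ F₂ d u u') (e : β → α) :
    Approx F₁ F₂ d (u ∘ e) (u' ∘ e) :=
  ⟨fun a b w w' hw hw' => H.1 (e a) (e b) w w' hw hw',
    fun a w hw => H.2.1 (e a) w hw,
    fun a b w w' hw hw' => H.2.2 (e a) (e b) w w' hw hw'⟩

section
variable {N₁ N₂ : Type} {F₁ : Frame N₁} {F₂ : Frame N₂} {α : Type} {u : α → N₁} {u' : α → N₂}

theorem approx_kind {d : ℕ} (H : Approx F₁ F₂ d u u') (a : α) :
    F₁.kind (u a) = F₂.kind (u' a) := H.2.1 a [] (Nat.zero_le _)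

theorem approx_eq {d : ℕ} (H : Approx F₁ F₂ d u u') (a b : α) :
    u a = u b ↔ u' a = u' b := H.1 a b [] [] (Nat.zero_le _) (Nat.zero_le _)

theorem approx_inc (H : Approx F₁ F₂ 2 u u') (a b : α) :
    F₁.Inc (u a) (u b) ↔ F₂.Inc (u' a) (u' b) := by
  unfold Frame.Inc
  have h1 := approx_kind H a
  have h2 := approx_kind H b
  have h3 : F₁.f .p (u a) = u b ↔ F₂.f .p (u' a) = u' b := H.1 a b [.p] [] (by simp) (by simp)
  have h4 : F₁.f .r0 (u b) = u a ↔ F₂.f .r0 (u' b) = u' a := H.1 b a [.r0] [] (by simp) (by simp)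
  have h5 : F₁.f .r1 (u b) = u a ↔ F₂.f .r1 (u' b) = u' a := H.1 b a [.r1] [] (by simp) (by simp)
  rw [h1, h2, h3, h4, h5]

theorem approx_inc' (H : Approx F₁ F₂ 2 u u') (a b : α) :
    F₁.Inc (u a) (F₁.f .p (u b)) ↔ F₂.Inc (u' a) (F₂.f .p (u' b)) := by
  unfold Frame.Inc
  have h1 := approx_kind H a
  have h2 : F₁.kind (F₁.f .p (u b)) = F₂.kind (F₂.f .p (u' b)) := H.2.1 b [.p] (by simp)
  have h3 : F₁.f .p (u a) = F₁.f .p (u b) ↔ F₂.f .p (u' a) = F₂.f .p (u' b) :=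
    H.1 a b [.p] [.p] (by simp) (by simp)
  have h4 : F₁.f .r0 (F₁.f .p (u b)) = u a ↔ F₂.f .r0 (F₂.f .p (u' b)) = u' a :=
    H.1 b a [.r0, .p] [] (by simp) (by simp)
  have h5 : F₁.f .r1 (F₁.f .p (u b)) = u a ↔ F₂.f .r1 (F₂.f .p (u' b)) = u' a :=
    H.1 b a [.r1, .p] [] (by simp) (by simp)
  rw [h1, h2, h3, h4, h5]

theorem approx_adj (H : Approx F₁ F₂ 2 u u') (a b : α) :
    F₁.Adj (u a) (u b) ↔ F₂.Adj (u' a) (u' b) := by
  unfold Frame.Adj
  have h1 := approx_kind H a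
  have h2 := approx_kind H b
  have h3 : F₁.R (u a) (u b) ↔ F₂.R (u' a) (u' b) :=
    H.2.2 a b [] [] (Nat.zero_le _) (Nat.zero_le _)
  have h4 : F₁.f .p (u a) = u a ↔ F₂.f .p (u' a) = u' a := H.1 a a [.p] [] (by simp) (by simp)
  have h5 : F₁.f .p (u b) = u b ↔ F₂.f .p (u' b) = u' b := H.1 b b [.p] [] (by simp) (by simp)
  rw [h1, h2, h3, ne_eq, ne_eq, ne_eq, ne_eq, h4, h5, approx_inc' H b a, approx_inc' H a b]

end

/-- terms of the relational language are variables -/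
theorem term_var {β : Type} (t : Lang.Term β) : ∃ x, t = Term.var x := by
  cases t with
  | var x => exact ⟨x, rfl⟩
  | func f _ => exact (f : Empty).elim

theorem det_bounded (hS : StepStatement) {α : Type} [Finite α] {n : ℕ}
    (φ : Lang.BoundedFormula α n) : ∃ d : ℕ,
    ∀ (N₁ N₂ : Type) [Lang.Structure N₁] [Lang.Structure N₂] (F₁ : Frame N₁) (F₂ : Frame N₂),
      F₁.Generic → F₂.Generic → Compat F₁ → Compat F₂ →
      ∀ (u : α → N₁) (u' : α → N₂) (v : Fin n → N₁) (v' : Fin n → N₂),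
        Approx F₁ F₂ d (Sum.elim u v) (Sum.elim u' v') → (φ.Realize u v ↔ φ.Realize u' v') := by
  induction φ with
  | falsum => exact ⟨0, fun _ _ _ _ _ _ _ _ _ _ _ _ _ _ _ => Iff.rfl⟩
  | equal t₁ t₂ =>
    obtain ⟨x, rfl⟩ := term_var t₁
    obtain ⟨y, rfl⟩ := term_var t₂
    refine ⟨0, fun N₁ N₂ _ _ F₁ F₂ _ _ _ _ u u' v v' H => ?_⟩
    exact approx_eq H x y
  | rel R ts =>
    refine ⟨2, fun N₁ N₂ _ _ F₁ F₂ _ _ h1 h2 u u' v v' H => ?_⟩
    choose x hx using fun i => term_var (ts i)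
    have e1 : (fun i => (ts i).realize (Sum.elim u v)) = fun i => Sum.elim u v (x i) := by
      funext i; rw [hx i]; rfl
    have e2 : (fun i => (ts i).realize (Sum.elim u' v')) = fun i => Sum.elim u' v' (x i) := by
      funext i; rw [hx i]; rfl
    show Structure.RelMap R _ ↔ Structure.RelMap R _
    rw [e1, e2]
    cases R with
    | kd κ =>
      rw [h1.1, h2.1, approx_kind H]
    | inc =>
      rw [h1.2.1, h2.2.1]
      exact approx_inc H _ _
    | adj =>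
      rw [h1.2.2, h2.2.2]
      exact approx_adj H _ _
  | imp φ ψ ih₁ ih₂ =>
    obtain ⟨d₁, h₁⟩ := ih₁
    obtain ⟨d₂, h₂⟩ := ih₂
    refine ⟨max d₁ d₂, fun N₁ N₂ _ _ F₁ F₂ g₁ g₂ c₁ c₂ u u' v v' H => ?_⟩
    rw [BoundedFormula.realize_imp, BoundedFormula.realize_imp,
      h₁ N₁ N₂ F₁ F₂ g₁ g₂ c₁ c₂ u u' v v' (Approx.mono (le_max_left _ _) H),
      h₂ N₁ N₂ F₁ F₂ g₁ g₂ c₁ c₂ u u' v v' (Approx.mono (le_max_right _ _) H)]
  | @all n φ ih =>
    obtain ⟨d, hd⟩ := ih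
    obtain ⟨D, -, hD⟩ := hS d
    refine ⟨D, fun N₁ N₂ _ _ F₁ F₂ g₁ g₂ c₁ c₂ u u' v v' H => ?_⟩
    set e : α ⊕ Fin (n + 1) → Option (α ⊕ Fin n) := Sum.elim (fun a => some (Sum.inl a))
      (fun i => Fin.lastCases none (fun j => some (Sum.inr j)) i) with he
    have key : ∀ {N : Type} (u : α → N) (v : Fin n → N) (x : N),
        (fun o : Option (α ⊕ Fin n) => o.elim x (Sum.elim u v)) ∘ e
          = Sum.elim u (Fin.snoc v x : Fin (n + 1) → N) := by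
      intro N u v x
      funext a
      rcases a with a | i
      · rfl
      · refine Fin.lastCases ?_ (fun j => ?_) i
        · simp [he]
        · simp [he]
    rw [BoundedFormula.realize_all, BoundedFormula.realize_all]
    constructor
    · intro h x'
      obtain ⟨x, hx⟩ := hD N₂ N₁ F₂ F₁ g₁ (α ⊕ Fin n) _ _ (Approx.symm H) x'
      have h1 := Approx.comp (Approx.symm hx) e
      rw [key, key] at h1
      exact (hd N₁ N₂ F₁ F₂ g₁ g₂ c₁ c₂ u u' _ _ h1).1 (h x)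
    · intro h x
      obtain ⟨x', hx⟩ := hD N₁ N₂ F₁ F₂ g₂ (α ⊕ Fin n) _ _ H x
      have h1 := Approx.comp hx e
      rw [key, key] at h1
      exact (hd N₁ N₂ F₁ F₂ g₁ g₂ c₁ c₂ u u' _ _ h1).2 (h x')

theorem det (hS : StepStatement) : DetStatement := by
  intro α _ φ
  obtain ⟨d, hd⟩ := det_bounded hS φ
  refine ⟨d, fun N₁ N₂ _ _ F₁ F₂ g₁ g₂ c₁ c₂ u u' H => ?_⟩
  refine hd N₁ N₂ F₁ F₂ g₁ g₂ c₁ c₂ u u' default default ?_
  have h1 := Approx.comp H (Sum.elim id Fin.elim0 : α ⊕ Fin 0 → α)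
  have e1 : u ∘ (Sum.elim id Fin.elim0 : α ⊕ Fin 0 → α) = Sum.elim u default := by
    funext a
    rcases a with a | i
    · rfl
    · exact i.elim0
  have e2 : u' ∘ (Sum.elim id Fin.elim0 : α ⊕ Fin 0 → α) = Sum.elim u' default := by
    funext a
    rcases a with a | i
    · rfl
    · exact i.elim0
  rwa [e1, e2] at h1

end Pool.Agent.SFC.H19
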