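import Pool.Agent.Lib.MP_aa7e4d_lc.Interfaces

/-!
# Module UNIF: thinning out an infinite family of finite tuples
-/

namespace Pool.Agent.SFC.H19

/-- constant or injective on an infinite subset -/
theorem const_or_inj {N : Type} {J : Set ℕ} (hJ : J.Infinite) (g : ℕ → N) :
    ∃ J' ⊆ J, J'.Infinite ∧ ((∀ i ∈ J', ∀ j ∈ J', g i = g j) ∨ Set.InjOn g J') := by
  by_cases h : ∃ z, (J ∩ g ⁻¹' {z}).Infinite
  · obtain ⟨z, hz⟩ := h
    refine ⟨_, Set.inter_subset_left, hz, Or.inl ?_⟩
    rintro i ⟨-, hi⟩ j ⟨-, hj⟩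
    rw [Set.mem_preimage, Set.mem_singleton_iff] at hi hj
    rw [hi, hj]
  · have h' : ∀ z, (J ∩ g ⁻¹' {z}).Finite := by
      intro z
      by_contra hz
      exact h ⟨z, hz⟩
    have himg : (g '' J).Infinite := by
      intro hfin
      apply hJ
      have : J ⊆ ⋃ z ∈ g '' J, (J ∩ g ⁻¹' {z}) := by
        intro j hj
        rw [Set.mem_iUnion₂]
        exact ⟨g j, ⟨j, hj, rfl⟩, hj, rfl⟩
      exact (hfin.biUnion fun z _ => h' z).subset this
    obtain ⟨s, hs, hb⟩ := Set.exists_subset_bijOn J g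
    refine ⟨s, hs, ?_, Or.inr hb.injOn⟩
    intro hfin
    apply himg
    rw [← hb.image_eq]
    exact hfin.image g

theorem all_const_or_inj {N T : Type} (y : ℕ → T → N) (A : Finset T) {J : Set ℕ}
    (hJ : J.Infinite) :
    ∃ J' ⊆ J, J'.Infinite ∧ ∀ α ∈ A, (∀ i ∈ J', ∀ j ∈ J', y i α = y j α) ∨
      Set.InjOn (fun i => y i α) J' := by
  classical
  induction A using Finset.induction_on with
  | empty => exact ⟨J, subset_rfl, hJ, by simp⟩
  | insert a A ha ih =>
    obtain ⟨J₁, h1, h2, h3⟩ := ih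
    obtain ⟨J₂, h4, h5, h6⟩ := const_or_inj h2 (fun i => y i a)
    refine ⟨J₂, h4.trans h1, h5, fun α hα => ?_⟩
    rw [Finset.mem_insert] at hα
    rcases hα with rfl | hα
    · exact h6
    · rcases h3 α hα with h | h
      · exact Or.inl fun i hi j hj => h i (h4 hi) j (h4 hj)
      · exact Or.inr (h.mono h4)

theorem unif : UnifStatement := by
  classical
  intro N Q T _ _ J col y k hJ
  -- the colour
  obtain ⟨J₁, hJ₁, hinf₁, hcol⟩ : ∃ J₁ ⊆ J, J₁.Infinite ∧ ∀ j ∈ J₁, ∀ j' ∈ J₁, col j = col j' := by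
    by_contra hcon
    have h' : ∀ q : Q, (J ∩ col ⁻¹' {q}).Finite := by
      intro q
      by_contra hq
      apply hcon
      refine ⟨_, Set.inter_subset_left, hq, ?_⟩
      rintro i ⟨-, hi⟩ j ⟨-, hj⟩
      rw [Set.mem_preimage, Set.mem_singleton_iff] at hi hj
      rw [hi, hj]
    apply hJ
    have : J ⊆ ⋃ q : Q, (J ∩ col ⁻¹' {q}) := by
      intro j hj
      rw [Set.mem_iUnion]
      exact ⟨col j, hj, rfl⟩
    exact (Set.finite_iUnion h').subset this
  have : Fintype T := Fintype.ofFinite T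
  obtain ⟨J₂, hJ₂, hinf₂, hci⟩ := all_const_or_inj y Finset.univ hinf₁
  -- constant positions
  set P : T → Prop := fun α => ∀ i ∈ J₂, ∀ j ∈ J₂, y i α = y j α with hP
  have hinj : ∀ α, ¬ P α → Set.InjOn (fun i => y i α) J₂ := fun α hα =>
    (hci α (Finset.mem_univ _)).resolve_left hα
  have hsub : ∀ α, ¬ P α → ∀ z : N, {i ∈ J₂ | y i α = z}.Finite := by
    intro α hα z
    refine Set.Subsingleton.finite ?_
    rintro i ⟨hi, hi'⟩ j ⟨hj, hj'⟩
    exact hinj α hα hi hj (hi'.trans hj'.symm)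
  have hcc : ∀ α β, ¬ P α → P β → {i ∈ J₂ | y i α = y i β}.Finite := by
    intro α β hα hβ
    refine Set.Subsingleton.finite ?_
    rintro i ⟨hi, hi'⟩ j ⟨hj, hj'⟩
    exact hinj α hα hi hj (hi'.trans ((hβ i hi j hj).trans hj'.symm))
  set B : Set ℕ := ⋃ (α : T) (β : T), {i ∈ J₂ | ¬ P α ∧ P β ∧ y i α = y i β} with hB
  have hBfin : B.Finite := by
    refine Set.finite_iUnion fun α => Set.finite_iUnion fun β => ?_
    by_cases hα : P α
    · refine Set.Finite.subset Set.finite_empty ?_
      rintro i ⟨-, hi, -⟩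
      exact absurd hα hi
    · by_cases hβ : P β
      · refine (hcc α β hα hβ).subset ?_
        rintro i ⟨hi, -, -, hi'⟩
        exact ⟨hi, hi'⟩
      · refine Set.Finite.subset Set.finite_empty ?_
        rintro i ⟨-, -, hi, -⟩
        exact absurd hi hβ
  have key : ∀ k : ℕ, ∃ K : Finset ℕ, K.card = k ∧ (∀ j ∈ K, j ∈ J₂ ∧ j ∉ B) ∧
      ∀ j ∈ K, ∀ j' ∈ K, j ≠ j' → ∀ α β : T, y j α = y j' β → y j' α = y j α := by
    intro k
    induction k with
    | zero => exact ⟨∅, by simp, by simp, by simp⟩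
    | succ k ih =>
      obtain ⟨K, hK, hKJ, hKK⟩ := ih
      set E : Set ℕ := ⋃ (j' ∈ K) (α : T) (β : T), {i ∈ J₂ | ¬ P α ∧ y i α = y j' β} with hE
      have hEfin : E.Finite := by
        refine Set.Finite.biUnion K.finite_toSet fun j' _ => Set.finite_iUnion fun α =>
          Set.finite_iUnion fun β => ?_
        by_cases hα : P α
        · refine Set.Finite.subset Set.finite_empty ?_
          rintro i ⟨-, hi, -⟩
          exact absurd hα hi
        · refine (hsub α hα (y j' β)).subset ?_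
          rintro i ⟨hi, -, hi'⟩
          exact ⟨hi, hi'⟩
      obtain ⟨j, hj, hj'⟩ := (hinf₂.sdiff ((hBfin.union hEfin).union K.finite_toSet)).nonempty
      have hjB : j ∉ B := fun h => hj' (Or.inl (Or.inl h))
      have hjE : j ∉ E := fun h => hj' (Or.inl (Or.inr h))
      have hjK : j ∉ K := fun h => hj' (Or.inr h)
      have hne : ∀ j' ∈ K, ∀ α β, ¬ P α → y j α ≠ y j' β := by
        intro j' hj'K α β hα he
        apply hjE
        simp only [hE, Set.mem_iUnion]
        exact ⟨j', hj'K, α, β, hj, hα, he⟩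
      refine ⟨insert j K, by rw [Finset.card_insert_of_notMem hjK, hK], ?_, ?_⟩
      · intro i hi
        rw [Finset.mem_insert] at hi
        rcases hi with rfl | hi
        · exact ⟨hj, hjB⟩
        · exact hKJ i hi
      · intro i hi i' hi' hii α β he
        rw [Finset.mem_insert] at hi hi'
        rcases hi with rfl | hi <;> rcases hi' with rfl | hi'
        · exact absurd rfl hii
        · by_cases hα : P α
          · exact hα i' (hKJ i' hi').1 i hj
          · exact absurd he (hne i' hi' α β hα)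
        · by_cases hα : P α
          · exact hα i' hj i (hKJ i hi).1
          · exfalso
            by_cases hβ : P β
            · have h1 : y i α = y i β := he.trans (hβ i' hj i (hKJ i hi).1)
              apply (hKJ i hi).2
              simp only [hB, Set.mem_iUnion]
              exact ⟨α, β, (hKJ i hi).1, hα, hβ, h1⟩
            · exact hne i hi β α hβ he.symm
        · exact hKK i hi i' hi' hii α β he
  obtain ⟨K, h1, h2, h3⟩ := key k
  exact ⟨K, h1, fun j hj => hJ₁ (hJ₂ (h2 j hj).1),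
    fun j hj j' hj' => hcol j (hJ₂ (h2 j hj).1) j' (hJ₂ (h2 j' hj').1), h3⟩

end Pool.Agent.SFC.H19
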